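import Mathlib
import Pool.Agent.N492.Charts
import Pool.Agent.N492.Conn
import Pool.Agent.N492.Emb

/-!
# Compact 3-manifolds that are not homeomorphic but have homeomorphic squares

For `k = 1, 2` let `X k` be the set of all `(w, u)` in `ℂ × S¹` with `w⁵ uᵏ ∈ B`, where `B` is
the closed disc of radius 2 minus the open discs of radius 1/2 about `1` and `-1`.  This is the
mapping torus of the `k`-th power of a rotation of order five of a disc with ten holes.

* As `5 ∣ 2² + 1`, the monomial homeomorphism
  `(w, u, z, v) ↦ (w v⁻¹, u² v⁵, z u⁻¹ v⁻², u⁵ v¹²)` of `(ℂ × S¹)²` maps `(X 2)²` onto `(X 1)²`.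
* A homeomorphism `X 1 → X 2` would map boundary tori to boundary tori (invariance of domain);
  winding numbers of the loops on the three tori exclude it.
-/

set_option autoImplicit false

open Complex Set Topology
open scoped Manifold

namespace Pool.Agent.Results.MP_2cc909_gt.EqualSquares

open Pool.Agent.N492

/-- There are compact connected 3-manifolds (with boundary), both embeddable in Euclidean 3-space,
which are not homeomorphic but have homeomorphic squares. -/
theorem result : ∃ (A B : Type) (_ : TopologicalSpace A) (_ : TopologicalSpace B),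
    (CompactSpace A ∧ T2Space A ∧ ConnectedSpace A ∧
      Nonempty (ChartedSpace (EuclideanHalfSpace 3) A) ∧
      ∃ f : A → EuclideanSpace ℝ (Fin 3), IsEmbedding f) ∧
    (CompactSpace B ∧ T2Space B ∧ ConnectedSpace B ∧
      Nonempty (ChartedSpace (EuclideanHalfSpace 3) B) ∧
      ∃ f : B → EuclideanSpace ℝ (Fin 3), IsEmbedding f) ∧
    IsEmpty (A ≃ₜ B) ∧ Nonempty ((A × A) ≃ₜ (B × B)) := by
  have key : ∀ k, CompactSpace (X k) ∧ T2Space (X k) ∧ ConnectedSpace (X k) ∧
      Nonempty (ChartedSpace (EuclideanHalfSpace 3) (X k)) ∧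
      ∃ f : X k → EuclideanSpace ℝ (Fin 3), IsEmbedding f := fun k =>
    ⟨isCompact_iff_compactSpace.1 (isCompact_X k), inferInstance,
      isConnected_iff_connectedSpace.1 (isPathConnected_X k).isConnected,
      ⟨chartedSpace k⟩, ⟨_, isEmbedding_emb k⟩⟩
  exact ⟨X 1, X 2, inferInstance, inferInstance, key 1, key 2, not_homeo, ⟨sqHomeo.symm⟩⟩

end Pool.Agent.Results.MP_2cc909_gt.EqualSquares
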